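import Pool.Agent.H629.GC.Stm

/-!
# Disjoint windows and a window estimate (A4, A5)
-/

set_option autoImplicit false

open MeasureTheory ProbabilityTheory Set Filter
open scoped ENNReal Topology

namespace Pool.Agent.H726.GC.A4

open Pool.Agent.H629.GC

theorem ex_add (a b : ℝ) : ex (a + b) = ex a * ex b := by
  unfold ex
  rw [Real.exp_add, ENNReal.ofReal_mul (Real.exp_pos _).le]

theorem ex_ne_zero (a : ℝ) : ex a ≠ 0 := by
  unfold ex
  simp [Real.exp_pos]

theorem ex_ne_top (a : ℝ) : ex a ≠ ⊤ := ENNReal.ofReal_ne_top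

theorem ex_rpow (a r : ℝ) : ex a ^ r = ex (a * r) := by
  unfold ex
  rw [ENNReal.ofReal_rpow_of_pos (Real.exp_pos _), ← Real.exp_mul]

theorem ex_mono {a b : ℝ} (h : a ≤ b) : ex a ≤ ex b :=
  ENNReal.ofReal_le_ofReal (Real.exp_le_exp.2 h)

theorem ex_zero : ex 0 = 1 := by
  unfold ex
  simp

theorem ex_half (x : ℝ) : ex (x - Real.log 2) + ex (x - Real.log 2) = ex x := by
  unfold ex
  rw [← ENNReal.ofReal_add (Real.exp_pos _).le (Real.exp_pos _).le, Real.exp_sub,
    Real.exp_log (by norm_num)]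
  congr 1
  ring

theorem ex_log {k : ℝ} (hk : 0 < k) : ENNReal.ofReal k = ex (Real.log k) := by
  unfold ex
  rw [Real.exp_log hk]

theorem t_A4 : S_A4 := by
  intro q a b y N hq hab hba
  have key : ∀ N : ℕ, ∑ i ∈ Finset.range N, (min y (ex (b i)) ^ q - ex (a i) ^ q) ≤
      min y (ex (a N)) ^ q := by
    intro N
    induction N with
    | zero => simp
    | succ N ih =>
      rw [Finset.sum_range_succ]
      have h1 : min y (ex (a N)) ^ q + (min y (ex (b N)) ^ q - ex (a N) ^ q) ≤
          min y (ex (b N)) ^ q := by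
        rcases le_total y (ex (a N)) with hy | hy
        · have h2 : y ≤ ex (b N) := hy.trans (ex_mono (hab N))
          rw [min_eq_left hy, min_eq_left h2, tsub_eq_zero_of_le
            (ENNReal.rpow_le_rpow hy hq.le), add_zero]
        · have h2 : ex (a N) ≤ min y (ex (b N)) := le_min hy (ex_mono (hab N))
          rw [min_eq_right hy, add_tsub_cancel_of_le (ENNReal.rpow_le_rpow h2 hq.le)]
      refine (add_le_add ih le_rfl).trans (h1.trans ?_)
      exact ENNReal.rpow_le_rpow (min_le_min le_rfl (ex_mono (hba N))) hq.le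
  exact (key N).trans (ENNReal.rpow_le_rpow (min_le_left _ _) hq.le)

theorem t_A5 : S_A5 := by
  intro q h v γ e C hh hhq hγ
  have hq : 0 < q := hh.trans hhq
  have hκ : 0 < 1 - Real.exp (-q) := by
    have : Real.exp (-q) < 1 := by
      rw [Real.exp_lt_one_iff]
      linarith
    linarith
  refine ⟨C + Real.log 2 - Real.log (1 - Real.exp (-q)),
    (2 * C + 2 * Real.log 2) / (e * h - γ), ?_⟩
  intro Ω _ μ G Y hG hY s hs h1 h2 h3
  have hδ : 0 < e * h - γ := by linarith
  have hs' : 2 * C + 2 * Real.log 2 ≤ s * (e * h - γ) := by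
    rwa [div_le_iff₀ hδ] at hs
  set E : Set Ω := {ω | ex ((v - e) * s) ≤ Y ω ∧ Y ω ≤ ex ((v + e) * s)} with hE
  have hEm : MeasurableSet E :=
    (measurableSet_le measurable_const hY).inter (measurableSet_le hY measurable_const)
  have hGY : ∀ t : ℝ, Measurable fun ω => G ω * Y ω ^ t := fun t => hG.mul (hY.pow_const t)
  -- the pointwise upper bound
  have hup : ∀ ω, G ω * Y ω ^ q ≤ E.indicator (fun ω => G ω * Y ω ^ q) ω +
      (ex (-((v + e) * s * h)) * (G ω * Y ω ^ (q + h)) +
        ex ((v - e) * s * h) * (G ω * Y ω ^ (q - h))) := by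
    intro ω
    by_cases hω : ω ∈ E
    · rw [indicator_of_mem hω]
      exact le_self_add
    · rw [indicator_of_notMem hω, zero_add]
      have hω' : Y ω < ex ((v - e) * s) ∨ ex ((v + e) * s) < Y ω := by
        by_contra hc
        push Not at hc
        exact hω ⟨hc.1, hc.2⟩
      rcases hω' with hω' | hω'
      · refine le_trans ?_ le_add_self
        have e1 : Y ω ^ q = Y ω ^ (q - h) * Y ω ^ h := by
          rw [← ENNReal.rpow_add_of_nonneg _ _ (by linarith) hh.le, sub_add_cancel]
        have e2 : Y ω ^ h ≤ ex ((v - e) * s * h) := by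
          rw [← ex_rpow]
          exact ENNReal.rpow_le_rpow hω'.le hh.le
        calc G ω * Y ω ^ q = Y ω ^ h * (G ω * Y ω ^ (q - h)) := by rw [e1]; ring
          _ ≤ _ := mul_le_mul' e2 le_rfl
      · refine le_trans ?_ le_self_add
        have e1 : Y ω ^ (q + h) = Y ω ^ q * Y ω ^ h := by
          rw [← ENNReal.rpow_add_of_nonneg _ _ hq.le hh.le]
        have e2 : 1 ≤ ex (-((v + e) * s * h)) * Y ω ^ h := by
          have e3 : ex ((v + e) * s * h) ≤ Y ω ^ h := by
            rw [← ex_rpow]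
            exact ENNReal.rpow_le_rpow hω'.le hh.le
          calc (1 : ℝ≥0∞) = ex (-((v + e) * s * h)) * ex ((v + e) * s * h) := by
                rw [← ex_add, neg_add_cancel, ex_zero]
            _ ≤ _ := mul_le_mul' le_rfl e3
        calc G ω * Y ω ^ q = 1 * (G ω * Y ω ^ q) := by rw [one_mul]
          _ ≤ (ex (-((v + e) * s * h)) * Y ω ^ h) * (G ω * Y ω ^ q) := mul_le_mul' e2 le_rfl
          _ = ex (-((v + e) * s * h)) * (G ω * Y ω ^ (q + h)) := by rw [e1]; ring
  -- the pointwise lower bound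
  have hlow : ∀ ω, E.indicator (fun ω => ENNReal.ofReal (1 - Real.exp (-q)) *
      (G ω * Y ω ^ q)) ω ≤
      G ω * (min (Y ω) (ex ((v + e) * s)) ^ q - ex ((v - e) * s - 1) ^ q) := by
    intro ω
    by_cases hω : ω ∈ E
    · rw [indicator_of_mem hω, min_eq_left hω.2]
      have e1 : ex ((v - e) * s - 1) ^ q ≤ ex (-q) * Y ω ^ q := by
        have e2 : ex ((v - e) * s - 1) ^ q = ex (-q) * ex ((v - e) * s) ^ q := by
          rw [ex_rpow, ex_rpow, ← ex_add]
          congr 1
          ring
        rw [e2]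
        exact mul_le_mul' le_rfl (ENNReal.rpow_le_rpow hω.1 hq.le)
      have hYt : Y ω ^ q ≠ ⊤ := by
        refine ne_top_of_le_ne_top (ex_ne_top ((v + e) * s * q)) ?_
        rw [← ex_rpow]
        exact ENNReal.rpow_le_rpow hω.2 hq.le
      have e3 : ENNReal.ofReal (1 - Real.exp (-q)) * Y ω ^ q ≤
          Y ω ^ q - ex ((v - e) * s - 1) ^ q := by
        refine le_trans ?_ (tsub_le_tsub_left e1 _)
        refine ENNReal.le_sub_of_add_le_right (ENNReal.mul_ne_top (ex_ne_top _) hYt) ?_
        rw [← add_mul]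
        have e4 : ENNReal.ofReal (1 - Real.exp (-q)) + ex (-q) = 1 := by
          unfold ex
          rw [← ENNReal.ofReal_add hκ.le (Real.exp_pos _).le, sub_add_cancel,
            ENNReal.ofReal_one]
        rw [e4, one_mul]
      calc ENNReal.ofReal (1 - Real.exp (-q)) * (G ω * Y ω ^ q)
          = G ω * (ENNReal.ofReal (1 - Real.exp (-q)) * Y ω ^ q) := by ring
        _ ≤ _ := mul_le_mul' le_rfl e3
    · rw [indicator_of_notMem hω]
      exact zero_le
  -- integrate
  have k1 : ex (-C) ≤ (∫⁻ ω in E, G ω * Y ω ^ q ∂μ) +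
      (ex (-((v + e) * s * h)) * ex (C + s * (v * h + γ)) +
        ex ((v - e) * s * h) * ex (C + s * (γ - v * h))) := by
    refine h1.trans ((lintegral_mono hup).trans ?_)
    rw [lintegral_add_left ((hGY q).indicator hEm), lintegral_indicator hEm,
      lintegral_add_left ((hGY (q + h)).const_mul _), lintegral_const_mul' _ _ (ex_ne_top _),
      lintegral_const_mul' _ _ (ex_ne_top _)]
    exact add_le_add le_rfl (add_le_add (mul_le_mul' le_rfl h2) (mul_le_mul' le_rfl h3))
  have k2 : ex (-((v + e) * s * h)) * ex (C + s * (v * h + γ)) +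
      ex ((v - e) * s * h) * ex (C + s * (γ - v * h)) ≤ ex (-C - Real.log 2) := by
    rw [← ex_add, ← ex_add, ← ex_half (-C - Real.log 2)]
    refine add_le_add (ex_mono ?_) (ex_mono ?_)
    · linarith
    · linarith
  have k3 : ex (-C - Real.log 2) ≤ ∫⁻ ω in E, G ω * Y ω ^ q ∂μ := by
    have k4 := k1.trans (add_le_add le_rfl k2)
    rw [← ex_half (-C)] at k4
    exact (ENNReal.add_le_add_iff_right (ex_ne_top _)).1 k4
  calc ex (-(C + Real.log 2 - Real.log (1 - Real.exp (-q))))
      = ENNReal.ofReal (1 - Real.exp (-q)) * ex (-C - Real.log 2) := by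
        rw [ex_log hκ, ← ex_add]
        congr 1
        ring
    _ ≤ ENNReal.ofReal (1 - Real.exp (-q)) * ∫⁻ ω in E, G ω * Y ω ^ q ∂μ :=
        mul_le_mul' le_rfl k3
    _ = ∫⁻ ω, E.indicator (fun ω => ENNReal.ofReal (1 - Real.exp (-q)) *
      (G ω * Y ω ^ q)) ω ∂μ := by
        rw [lintegral_indicator hEm, lintegral_const_mul' _ _ ENNReal.ofReal_ne_top]
    _ ≤ _ := lintegral_mono hlow

end Pool.Agent.H726.GC.A4
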