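import Pool.Agent.H629.GC.Stm

/-!
# The cube (H1, H2, H3)
-/

set_option autoImplicit false

open MeasureTheory ProbabilityTheory Set Filter
open scoped ENNReal Topology

namespace Pool.Agent.H726.GC.H

open Pool.Agent.H629.GC

theorem ex_add (a b : ℝ) : ex (a + b) = ex a * ex b := by
  unfold ex
  rw [Real.exp_add, ENNReal.ofReal_mul (Real.exp_pos _).le]

theorem ex_log {k : ℝ} (hk : 0 < k) : ENNReal.ofReal k = ex (Real.log k) := by
  unfold ex
  rw [Real.exp_log hk]

variable {d : ℕ}

/-- the cube as a set -/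
def SC (d : ℕ) : Set (EuclideanSpace ℝ (Fin d)) := {x | ∀ i, x i ∈ Set.Icc (0 : ℝ) 1}

theorem SC_closed (d : ℕ) : IsClosed (SC d) := by
  have e : SC d = ⋂ i, (fun x : EuclideanSpace ℝ (Fin d) => x i) ⁻¹' Set.Icc (0 : ℝ) 1 := by
    ext x
    simp [SC]
  rw [e]
  refine isClosed_iInter fun i => isClosed_Icc.preimage ?_
  exact (EuclideanSpace.proj (𝕜 := ℝ) i).continuous

theorem coord_le (x y : EuclideanSpace ℝ (Fin d)) (i : Fin d) : |y i - x i| ≤ dist y x := by
  rw [dist_eq_norm]
  exact PiLp.norm_apply_le (y - x) i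

theorem SC_bdd (d : ℕ) : Bornology.IsBounded (SC d) := by
  rw [isBounded_iff_forall_norm_le]
  refine ⟨Real.sqrt d, fun x hx => ?_⟩
  rw [EuclideanSpace.norm_eq]
  refine Real.sqrt_le_sqrt ?_
  have h1 : ∀ i ∈ (Finset.univ : Finset (Fin d)), ‖x i‖ ^ 2 ≤ 1 := by
    intro i _
    have := hx i
    rw [Real.norm_eq_abs, sq_abs]
    nlinarith [this.1, this.2]
  refine (Finset.sum_le_sum h1).trans ?_
  simp

theorem SC_compact (d : ℕ) : IsCompact (SC d) :=
  Metric.isCompact_of_isClosed_isBounded (SC_closed d) (SC_bdd d)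

theorem emb (d : ℕ) : MeasurableEmbedding (Subtype.val : Cube d → EuclideanSpace ℝ (Fin d)) :=
  MeasurableEmbedding.subtype_coe (SC_closed d).measurableSet

theorem vol_apply (A : Set (Cube d)) :
    cubeVol d A = volume ((Subtype.val : Cube d → EuclideanSpace ℝ (Fin d)) '' A) :=
  (emb d).comap_apply _ _

/-- the logarithm of the volume of the unit ball -/
noncomputable def lc (d : ℕ) : ℝ :=
  Real.log (volume (Metric.ball (0 : EuclideanSpace ℝ (Fin d)) 1)).toReal

theorem unit_ball (d : ℕ) : volume (Metric.ball (0 : EuclideanSpace ℝ (Fin d)) 1) = ex (lc d) := by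
  have h1 : volume (Metric.ball (0 : EuclideanSpace ℝ (Fin d)) 1) ≠ ⊤ := measure_ball_lt_top.ne
  have h2 : volume (Metric.ball (0 : EuclideanSpace ℝ (Fin d)) 1) ≠ 0 :=
    (Metric.measure_ball_pos _ _ one_pos).ne'
  unfold lc
  rw [← ex_log (ENNReal.toReal_pos h2 h1), ENNReal.ofReal_toReal h1]

theorem vol_cball (x : EuclideanSpace ℝ (Fin d)) (t : ℝ) :
    volume (Metric.closedBall x (Real.exp t)) = ex (lc d + d * t) := by
  rw [Measure.addHaar_closedBall _ _ (Real.exp_pos t).le, finrank_euclideanSpace_fin, unit_ball,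
    ← Real.exp_nat_mul, mul_comm]
  rw [ex_add]
  rfl

theorem vol_ball (x : EuclideanSpace ℝ (Fin d)) (t : ℝ) :
    volume (Metric.ball x (Real.exp t)) = ex (lc d + d * t) := by
  rw [Measure.addHaar_ball_of_pos _ _ (Real.exp_pos t), finrank_euclideanSpace_fin, unit_ball,
    ← Real.exp_nat_mul, mul_comm]
  rw [ex_add]
  rfl

theorem t_H1 : S_H1 := by
  intro d _
  refine ⟨lc d, fun z t => ?_⟩
  rw [vol_apply, ← vol_cball z.1 t]
  refine measure_mono ?_
  rintro _ ⟨y, hy, rfl⟩
  exact hy

theorem mem_cube {x : EuclideanSpace ℝ (Fin d)} (hx : ∀ i, x i ∈ Set.Icc (1 / 4 : ℝ) (3 / 4))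
    {y : EuclideanSpace ℝ (Fin d)} (hy : dist y x ≤ 1 / 4) : ∀ i, y i ∈ Set.Icc (0 : ℝ) 1 := by
  intro i
  have h1 := (coord_le x y i).trans hy
  rw [abs_le] at h1
  have h2 := hx i
  constructor
  · linarith [h2.1, h1.1]
  · linarith [h2.2, h1.2]

theorem t_H2 : S_H2 := by
  intro d hd
  refine ⟨Real.log 2 - lc d, fun x t hx ht => ?_⟩
  rw [vol_apply]
  have hsub : Metric.closedBall x.1 (Real.exp t) \ Metric.ball x.1 (Real.exp (t - Real.log 2)) ⊆
      (Subtype.val : Cube d → EuclideanSpace ℝ (Fin d)) ''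
        {y : Cube d | dist x y ≤ Real.exp t ∧ Real.exp t / 2 ≤ dist x y} := by
    rintro y ⟨h1, h2⟩
    rw [Metric.mem_closedBall] at h1
    rw [Metric.mem_ball, not_lt, Real.exp_sub, Real.exp_log (by norm_num)] at h2
    refine ⟨⟨y, mem_cube hx (h1.trans ht)⟩, ⟨?_, ?_⟩, rfl⟩
    · rw [dist_comm]
      exact h1
    · rw [dist_comm]
      exact h2
  refine le_trans ?_ (measure_mono hsub)
  refine le_trans ?_ le_measure_sdiff
  rw [vol_cball, vol_ball]
  have hl : ((1 : ℕ) : ℝ) ≤ d := by exact_mod_cast hd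
  have hlog : 0 < Real.log 2 := Real.log_pos (by norm_num)
  refine ENNReal.le_sub_of_add_le_right ENNReal.ofReal_ne_top ?_
  unfold ex
  rw [← ENNReal.ofReal_add (Real.exp_pos _).le (Real.exp_pos _).le]
  refine ENNReal.ofReal_le_ofReal ?_
  have e1 : Real.exp (-(Real.log 2 - lc d) + d * t) = Real.exp (lc d + d * t) / 2 := by
    rw [show -(Real.log 2 - lc d) + d * t = (lc d + d * t) - Real.log 2 by ring, Real.exp_sub,
      Real.exp_log (by norm_num)]
  have e2 : Real.exp (lc d + d * (t - Real.log 2)) ≤ Real.exp (lc d + d * t) / 2 := by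
    rw [← e1]
    refine Real.exp_le_exp.2 ?_
    push_cast at hl
    nlinarith
  rw [e1]
  linarith

theorem t_H3 : S_H3 := by
  intro d δ _ hδ
  have hcs : CompactSpace (Cube d) := isCompact_iff_compactSpace.1 (SC_compact d)
  refine ⟨⟨?_⟩, ?_, ?_⟩
  · rw [vol_apply]
    refine lt_of_le_of_lt (measure_mono ?_) (SC_compact d).measure_lt_top
    rintro _ ⟨y, -, rfl⟩
    exact y.2
  · obtain ⟨t, -, htf, htc⟩ := finite_cover_balls_of_compact (isCompact_univ (X := Cube d))
      (half_pos hδ)
    set l := htf.toFinset.toList with hl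
    refine ⟨l.length, fun i => if h : i < l.length then Metric.closedBall (l[i]) (δ / 2) else ∅,
      ?_, ?_, ?_⟩
    · intro i
      by_cases h : i < l.length
      · simp only [h, dif_pos]
        exact Metric.isClosed_closedBall.measurableSet
      · simp only [h, dif_neg, not_false_eq_true]
        exact MeasurableSet.empty
    · intro i x hx y hy
      by_cases h : i < l.length
      · simp only [h, dif_pos] at hx hy
        rw [Metric.mem_closedBall] at hx hy
        have := dist_triangle_right x y (l[i])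
        linarith
      · simp only [h, dif_neg, not_false_eq_true] at hx
        exact absurd hx (notMem_empty x)
    · rw [eq_univ_iff_forall]
      intro x
      have hx := htc (mem_univ x)
      rw [mem_iUnion₂] at hx
      obtain ⟨y, hy, hxy⟩ := hx
      have hyl : y ∈ l := by
        rw [hl, Finset.mem_toList, Set.Finite.mem_toFinset]
        exact hy
      obtain ⟨i, hi, rfl⟩ := List.mem_iff_getElem.1 hyl
      rw [mem_iUnion₂]
      refine ⟨i, Finset.mem_range.2 hi, ?_⟩
      simp only [hi, dif_pos]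
      exact Metric.ball_subset_closedBall hxy
  · set z₀ : EuclideanSpace ℝ (Fin d) := WithLp.toLp 2 (fun _ => (1 / 2 : ℝ)) with hz₀
    have hz1 : ∀ i, z₀ i = 1 / 2 := fun i => rfl
    have hz2 : ∀ i, z₀ i ∈ Set.Icc (1 / 4 : ℝ) (3 / 4) := by
      intro i
      rw [hz1]
      constructor <;> norm_num
    have hz3 : ∀ i, z₀ i ∈ Set.Icc (0 : ℝ) 1 := by
      intro i
      rw [hz1]
      constructor <;> norm_num
    have hη : 0 < min (δ / 4) (1 / 4) := lt_min (by linarith) (by norm_num)
    refine ⟨⟨z₀, hz3⟩, min (δ / 4) (1 / 4), hη, min_le_left _ _, ?_, ?_⟩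
    · rw [vol_apply]
      refine lt_of_lt_of_le (Metric.measure_closedBall_pos volume z₀ hη) (measure_mono ?_)
      intro y hy
      rw [Metric.mem_closedBall] at hy
      exact ⟨⟨y, mem_cube hz2 (hy.trans (min_le_right _ _))⟩, hy, rfl⟩
    · intro x hx i
      rw [Metric.mem_closedBall] at hx
      have h1 : |x.1 i - z₀ i| ≤ 1 / 4 :=
        (coord_le z₀ x.1 i).trans (hx.trans (min_le_right _ _))
      rw [hz1, abs_le] at h1
      constructor
      · linarith [h1.1]
      · linarith [h1.2]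

end Pool.Agent.H726.GC.H
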